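import Mathlib

/-!
# Spheres without large missing faces are determined by their g-numbers (equality case)

`S(i,d-1)` is the class of `ℤ/2`-homology `(d-1)`-spheres whose missing faces all have dimension at
most `i`; `K(i,d-1)` is the join of `q` copies of the boundary of the `i`-simplex with the boundary
of the `r`-simplex, `d = q i + r`, `1 ≤ r ≤ i`.

We prove: if `Δ ∈ S(i,d-1)` has the same g-numbers as `K(i,d-1)`, then `Δ` is isomorphic to
`K(i,d-1)`.
-/

set_option autoImplicit false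
set_option linter.unusedSectionVars false

namespace Pool.Agent.Results.MP_94a3a7_co.Uniqueness

open Finset

/-! ### The definitions used in the statement -/

/-- A finite simplicial complex with vertices in `V`; the empty set is a face. -/
@[ext]
structure Cx (V : Type) where
  faces : Finset (Finset V)
  empty_mem : ∅ ∈ faces
  down : ∀ F ∈ faces, ∀ G, G ⊆ F → G ∈ faces

section defs

variable {V : Type} [DecidableEq V]

/-- The link of a face `σ`: the faces `G` disjoint from `σ` with `G ∪ σ` a face. -/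
def link (Δ : Cx V) (σ : Finset V) (hσ : σ ∈ Δ.faces) : Cx V where
  faces := Δ.faces.filter fun G => Disjoint G σ ∧ G ∪ σ ∈ Δ.faces
  empty_mem := by
    rw [mem_filter, empty_union]
    exact ⟨Δ.empty_mem, disjoint_empty_left _, hσ⟩
  down := by
    intro G hG H hH
    rw [mem_filter] at hG ⊢
    exact ⟨Δ.down G hG.1 H hH, disjoint_of_subset_left hH hG.2.1,
      Δ.down _ hG.2.2 _ (union_subset_union_left hH)⟩

/-- The faces with exactly `k` vertices, that is of dimension `k - 1`. -/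
abbrev Face (Γ : Cx V) (k : ℕ) : Type := {F : Finset V // F ∈ Γ.faces ∧ F.card = k}

instance instFintypeFace (Γ : Cx V) (k : ℕ) : Fintype (Face Γ k) :=
  Fintype.subtype (Γ.faces.filter fun F => F.card = k) (fun F => by rw [mem_filter])

/-- The simplicial boundary map with coefficients in `ℤ/2`, from the chains on the faces with
`k + 1` vertices to the chains on the faces with `k` vertices: the coefficient of `τ` in the boundary
of `c` is the sum of the coefficients in `c` of the faces which contain `τ`. -/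
def bd (Γ : Cx V) (k : ℕ) : (Face Γ (k + 1) → ZMod 2) →ₗ[ZMod 2] (Face Γ k → ZMod 2) where
  toFun c τ := ∑ σ : Face Γ (k + 1), if τ.1 ⊆ σ.1 then c σ else 0
  map_add' a b := by
    funext τ
    simp only [Pi.add_apply]
    rw [← sum_add_distrib]
    refine sum_congr rfl fun σ _ => ?_
    split_ifs <;> simp
  map_smul' r a := by
    funext τ
    simp only [Pi.smul_apply, RingHom.id_apply, smul_eq_mul, mul_sum]
    refine sum_congr rfl fun σ _ => ?_
    split_ifs <;> simp

/-- The cycles on the faces with `k` vertices (all chains if `k = 0`). -/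
def cycles (Γ : Cx V) : (k : ℕ) → Submodule (ZMod 2) (Face Γ k → ZMod 2)
  | 0 => ⊤
  | k + 1 => LinearMap.ker (bd Γ k)

/-- The boundaries on the faces with `k` vertices. -/
def boundaries (Γ : Cx V) (k : ℕ) : Submodule (ZMod 2) (Face Γ k → ZMod 2) :=
  LinearMap.range (bd Γ k)

/-- The dimension of the reduced homology of `Γ` over `ℤ/2` in degree `k - 1` (cycles modulo
boundaries on the faces with `k` vertices). -/
noncomputable def betti (Γ : Cx V) (k : ℕ) : ℕ :=
  Module.finrank (ZMod 2) (cycles Γ k ⧸ (boundaries Γ k).submoduleOf (cycles Γ k))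

/-- `Δ` is a `ℤ/2`-homology `(d-1)`-sphere: every face is contained in a face with `d` vertices, and
for every face `σ` (the empty one included) the link of `σ` has the reduced homology of a sphere of
dimension `d - 1 - |σ|`. -/
structure IsSphere (d : ℕ) (Δ : Cx V) : Prop where
  pure : ∀ F ∈ Δ.faces, ∃ G ∈ Δ.faces, F ⊆ G ∧ G.card = d
  link_homology : ∀ (σ : Finset V) (hσ : σ ∈ Δ.faces) (k : ℕ),
    betti (link Δ σ hσ) k = if k + σ.card = d then 1 else 0

/-- `τ` is a missing face: a set of vertices which is not a face, all of whose proper subsets are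
faces. -/
def IsMissing (Δ : Cx V) (τ : Finset V) : Prop :=
  (∀ v ∈ τ, {v} ∈ Δ.faces) ∧ τ ∉ Δ.faces ∧ ∀ ρ, ρ ⊂ τ → ρ ∈ Δ.faces

/-- The number `f_{k-1}` of faces with `k` vertices. -/
def numFaces (Δ : Cx V) (k : ℕ) : ℕ := (Δ.faces.filter fun F => F.card = k).card

/-- The h-number `h_j = ∑_{k ≤ j} (-1)^(j-k) C(d-k, d-j) f_{k-1}`. -/
def hNum (d : ℕ) (Δ : Cx V) (j : ℕ) : ℤ :=
  ∑ k ∈ range (j + 1), (-1) ^ (j - k) * ((d - k).choose (d - j) : ℤ) * (numFaces Δ k : ℤ)

/-- The g-numbers: `g_0 = 1` and `g_j = h_j - h_{j-1}`. -/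
def gNum (d : ℕ) (Δ : Cx V) (j : ℕ) : ℤ :=
  if j = 0 then 1 else hNum d Δ j - hNum d Δ (j - 1)

/-- Isomorphism of complexes: a bijection of the vertex sets such that a set of vertices is a face
if and only if its image is one. -/
def Isomorphic {W : Type} (Γ : Cx W) (Δ : Cx V) : Prop :=
  ∃ e : {w // {w} ∈ Γ.faces} ≃ {v // {v} ∈ Δ.faces},
    ∀ F : Finset {w // {w} ∈ Γ.faces},
      F.map (Function.Embedding.subtype _) ∈ Γ.faces ↔
        (F.map e.toEmbedding).map (Function.Embedding.subtype _) ∈ Δ.faces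

end defs

/-- The join of the boundary complexes of simplices of dimensions `s a`: the vertex set is the
disjoint union of blocks with `s a + 1` elements, and the faces are the sets which contain no
block. -/
def joinBoundaries {n : ℕ} (s : Fin n → ℕ) : Cx (Σ a : Fin n, Fin (s a + 1)) where
  faces := univ.filter fun F => ∀ a, ∃ x : Fin (s a + 1), (⟨a, x⟩ : Σ a : Fin n, Fin (s a + 1)) ∉ F
  empty_mem := by
    rw [mem_filter]
    exact ⟨mem_univ _, fun a => ⟨0, notMem_empty _⟩⟩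
  down := by
    intro F hF G hG
    rw [mem_filter] at hF ⊢
    refine ⟨mem_univ _, fun a => ?_⟩
    obtain ⟨x, hx⟩ := hF.2 a
    exact ⟨x, fun h => hx (hG h)⟩

/-- The dimensions of the simplices: `q` times `i`, and `r`. -/
def dims (i q r : ℕ) (a : Fin (q + 1)) : ℕ := if (a : ℕ) < q then i else r

/-- `K(i,d-1)` for `d = q i + r`: the join of `q` copies of the boundary of the `i`-simplex with the
boundary of the `r`-simplex. -/
def K (i q r : ℕ) : Cx (Σ a : Fin (q + 1), Fin (dims i q r a + 1)) := joinBoundaries (dims i q r)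

/-! ### Homology and the Euler relation -/

section euler

variable {V : Type} [DecidableEq V]

lemma card_face (Γ : Cx V) (k : ℕ) : Fintype.card (Face Γ k) = numFaces Γ k := by
  unfold numFaces
  exact Fintype.card_of_subtype _ (fun F => by rw [mem_filter])

lemma count_between (Γ : Cx V) (k : ℕ) (τ : Face Γ k) (ρ : Face Γ (k + 1 + 1)) :
    (∑ σ : Face Γ (k + 1), if τ.1 ⊆ σ.1 ∧ σ.1 ⊆ ρ.1 then (1 : ZMod 2) else 0) = 0 := by
  rw [sum_boole]
  by_cases h : τ.1 ⊆ ρ.1
  · have h2 : (univ.filter fun σ : Face Γ (k + 1) => τ.1 ⊆ σ.1 ∧ σ.1 ⊆ ρ.1).card = 2 := by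
      rw [← card_map (Function.Embedding.subtype _)]
      have h3 : (univ.filter fun σ : Face Γ (k + 1) => τ.1 ⊆ σ.1 ∧ σ.1 ⊆ ρ.1).map
          (Function.Embedding.subtype _) = (ρ.1 \ τ.1).image (fun x => insert x τ.1) := by
        ext F
        simp only [mem_map, mem_filter, mem_univ, true_and, Function.Embedding.subtype_apply,
          mem_image, mem_sdiff]
        constructor
        · rintro ⟨σ, ⟨h4, h5⟩, rfl⟩
          have h6 : (σ.1 \ τ.1).card = 1 := by
            rw [card_sdiff_of_subset h4, σ.2.2, τ.2.2]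
            omega
          obtain ⟨x, hx⟩ := card_eq_one.1 h6
          have hx1 : x ∈ σ.1 \ τ.1 := by rw [hx]; exact mem_singleton_self x
          rw [mem_sdiff] at hx1
          refine ⟨x, ⟨h5 hx1.1, hx1.2⟩, ?_⟩
          rw [insert_eq, ← hx]
          exact sdiff_union_of_subset h4
        · rintro ⟨x, ⟨h4, h5⟩, rfl⟩
          have h6 : insert x τ.1 ⊆ ρ.1 := insert_subset h4 h
          refine ⟨⟨insert x τ.1, Γ.down _ ρ.2.1 _ h6, ?_⟩, ⟨subset_insert _ _, h6⟩, rfl⟩
          rw [card_insert_of_notMem h5, τ.2.2]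
      rw [h3, card_image_of_injOn, card_sdiff_of_subset h, ρ.2.2, τ.2.2]
      · omega
      · intro x hx y hy hxy
        have hx' := (mem_sdiff.1 hx).2
        simp only at hxy
        have : x ∈ insert y τ.1 := by rw [← hxy]; exact mem_insert_self _ _
        rcases mem_insert.1 this with h7 | h7
        · exact h7
        · exact absurd h7 hx'
    rw [h2]
    rfl
  · have h2 : (univ.filter fun σ : Face Γ (k + 1) => τ.1 ⊆ σ.1 ∧ σ.1 ⊆ ρ.1) = ∅ := by
      rw [filter_eq_empty_iff]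
      rintro σ _ ⟨h3, h4⟩
      exact h (h3.trans h4)
    rw [h2, card_empty]
    rfl

lemma bd_bd (Γ : Cx V) (k : ℕ) (c : Face Γ (k + 1 + 1) → ZMod 2) : bd Γ k (bd Γ (k + 1) c) = 0 := by
  funext τ
  show (∑ σ : Face Γ (k + 1), if τ.1 ⊆ σ.1 then
    (∑ ρ : Face Γ (k + 1 + 1), if σ.1 ⊆ ρ.1 then c ρ else 0) else 0) = 0
  have h : ∀ σ : Face Γ (k + 1), (if τ.1 ⊆ σ.1 then
      (∑ ρ : Face Γ (k + 1 + 1), if σ.1 ⊆ ρ.1 then c ρ else 0) else 0) =
      ∑ ρ : Face Γ (k + 1 + 1), c ρ * (if τ.1 ⊆ σ.1 ∧ σ.1 ⊆ ρ.1 then 1 else 0) := by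
    intro σ
    by_cases h1 : τ.1 ⊆ σ.1
    · rw [if_pos h1]
      refine sum_congr rfl fun ρ _ => ?_
      by_cases h2 : σ.1 ⊆ ρ.1
      · rw [if_pos h2, if_pos ⟨h1, h2⟩, mul_one]
      · rw [if_neg h2, if_neg (fun h => h2 h.2), mul_zero]
    · rw [if_neg h1]
      symm
      refine sum_eq_zero fun ρ _ => ?_
      rw [if_neg (fun h => h1 h.1), mul_zero]
  rw [sum_congr rfl fun σ _ => h σ, sum_comm]
  refine sum_eq_zero fun ρ _ => ?_
  rw [← mul_sum, count_between, mul_zero]

lemma boundaries_le (Γ : Cx V) (k : ℕ) : boundaries Γ k ≤ cycles Γ k := by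
  cases k with
  | zero => exact le_top
  | succ k =>
    rintro _ ⟨c, rfl⟩
    exact bd_bd Γ k c

lemma betti_add (Γ : Cx V) (k : ℕ) : betti Γ k + Module.finrank (ZMod 2) (boundaries Γ k) =
    Module.finrank (ZMod 2) (cycles Γ k) := by
  have h := Submodule.finrank_quotient_add_finrank ((boundaries Γ k).submoduleOf (cycles Γ k))
  rw [LinearEquiv.finrank_eq (Submodule.submoduleOfEquivOfLe (boundaries_le Γ k))] at h
  exact h

lemma finrank_chains (Γ : Cx V) (k : ℕ) :
    Module.finrank (ZMod 2) (Face Γ k → ZMod 2) = numFaces Γ k := by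
  rw [Module.finrank_fintype_fun_eq_card, card_face]

lemma euler_aux (Γ : Cx V) (n : ℕ) : ∑ k ∈ range (n + 1), (-1 : ℤ) ^ k * (numFaces Γ k : ℤ) =
    (∑ k ∈ range (n + 1), (-1 : ℤ) ^ k * (betti Γ k : ℤ)) +
      (-1) ^ n * (Module.finrank (ZMod 2) (boundaries Γ n) : ℤ) := by
  induction n with
  | zero =>
    simp only [zero_add, sum_range_one, pow_zero, one_mul]
    have h := betti_add Γ 0
    have h2 : Module.finrank (ZMod 2) (cycles Γ 0) = numFaces Γ 0 := by
      show Module.finrank (ZMod 2) (⊤ : Submodule (ZMod 2) (Face Γ 0 → ZMod 2)) = _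
      rw [finrank_top, finrank_chains]
    rw [h2] at h
    exact_mod_cast h.symm
  | succ n ih =>
    rw [sum_range_succ, ih, sum_range_succ _ (n + 1)]
    have h := betti_add Γ (n + 1)
    have h2 : Module.finrank (ZMod 2) (boundaries Γ n) +
        Module.finrank (ZMod 2) (cycles Γ (n + 1)) = numFaces Γ (n + 1) := by
      rw [← finrank_chains]
      exact LinearMap.finrank_range_add_finrank_ker (bd Γ n)
    have h3 : (numFaces Γ (n + 1) : ℤ) = (Module.finrank (ZMod 2) (boundaries Γ n) : ℤ) +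
        ((betti Γ (n + 1) : ℤ) + (Module.finrank (ZMod 2) (boundaries Γ (n + 1)) : ℤ)) := by
      exact_mod_cast (by rw [h, h2])
    rw [h3]
    ring

lemma sum_faces (Γ : Cx V) (n : ℕ) (hn : ∀ F ∈ Γ.faces, F.card ≤ n) :
    ∑ F ∈ Γ.faces, (-1 : ℤ) ^ F.card = ∑ k ∈ range (n + 1), (-1 : ℤ) ^ k * (numFaces Γ k : ℤ) := by
  rw [← sum_fiberwise_of_maps_to (s := Γ.faces) (t := range (n + 1)) (g := fun F => F.card)
    (fun F hF => mem_range.2 (Nat.lt_succ_of_le (hn F hF)))]
  refine sum_congr rfl fun k _ => ?_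
  rw [sum_congr rfl (g := fun _ => (-1 : ℤ) ^ k) (fun F hF => by rw [(mem_filter.1 hF).2]),
    sum_const, nsmul_eq_mul, mul_comm]
  rfl

lemma card_le {d : ℕ} {Δ : Cx V} (h : IsSphere d Δ) (F : Finset V) (hF : F ∈ Δ.faces) :
    F.card ≤ d := by
  obtain ⟨G, _, hFG, hG⟩ := h.pure F hF
  rw [← hG]
  exact card_le_card hFG

/-- the Euler relation of a link -/
lemma euler_link {d : ℕ} {Δ : Cx V} (h : IsSphere d Δ) (σ : Finset V) (hσ : σ ∈ Δ.faces) :
    ∑ H ∈ (link Δ σ hσ).faces, (-1 : ℤ) ^ H.card = (-1) ^ (d - σ.card) := by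
  have hle : ∀ F ∈ (link Δ σ hσ).faces, F.card ≤ d := fun F hF =>
    card_le h F (mem_filter.1 hF).1
  rw [sum_faces _ d hle, euler_aux]
  have hσd := card_le h σ hσ
  have h0 : Module.finrank (ZMod 2) (boundaries (link Δ σ hσ) d) = 0 := by
    have h1 : Module.finrank (ZMod 2) (boundaries (link Δ σ hσ) d) ≤
        Module.finrank (ZMod 2) (Face (link Δ σ hσ) (d + 1) → ZMod 2) :=
      LinearMap.finrank_range_le _
    rw [finrank_chains] at h1
    have h2 : numFaces (link Δ σ hσ) (d + 1) = 0 := by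
      unfold numFaces
      rw [card_eq_zero, filter_eq_empty_iff]
      intro F hF hc
      have := hle F hF
      omega
    omega
  rw [h0, Nat.cast_zero, mul_zero, add_zero, sum_eq_single (d - σ.card)]
  · rw [h.link_homology, if_pos (by omega), Nat.cast_one, mul_one]
  · intro k _ hk
    rw [h.link_homology, if_neg (by omega), Nat.cast_zero, mul_zero]
  · intro hk
    exact absurd (mem_range.2 (by omega)) hk

/-- the Euler relation in the complex -/
lemma euler_up {d : ℕ} {Δ : Cx V} (h : IsSphere d Δ) (σ : Finset V) (hσ : σ ∈ Δ.faces) :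
    ∑ F ∈ Δ.faces.filter (fun F => σ ⊆ F), (-1 : ℤ) ^ (F.card - σ.card) = (-1) ^ (d - σ.card) := by
  rw [← euler_link h σ hσ]
  symm
  refine sum_bij (fun H _ => H ∪ σ) ?_ ?_ ?_ ?_
  · intro H hH
    have hH' := (mem_filter.1 hH).2
    exact mem_filter.2 ⟨hH'.2, subset_union_right⟩
  · intro H hH H' hH' he
    have h1 := (mem_filter.1 hH).2.1
    have h2 := (mem_filter.1 hH').2.1
    have h3 : (H ∪ σ) \ σ = (H' ∪ σ) \ σ := by rw [he]
    rwa [union_sdiff_cancel_right h1, union_sdiff_cancel_right h2] at h3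
  · intro F hF
    obtain ⟨hF1, hF2⟩ := mem_filter.1 hF
    refine ⟨F \ σ, ?_, sdiff_union_of_subset hF2⟩
    refine mem_filter.2 ⟨Δ.down F hF1 _ sdiff_subset, sdiff_disjoint, ?_⟩
    rw [sdiff_union_of_subset hF2]
    exact hF1
  · intro H hH
    have h1 := (mem_filter.1 hH).2.1
    rw [card_union_of_disjoint h1, Nat.add_sub_cancel]

/-- the polynomial `∑ f_{k-1} x^k (1-x)^(d-k)` -/
noncomputable def P (d : ℕ) (Δ : Cx V) : Polynomial ℤ :=
  ∑ F ∈ Δ.faces, Polynomial.X ^ F.card * (1 - Polynomial.X) ^ (d - F.card)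

/-- the polynomial `∑ f_{k-1} (x-1)^(d-k)` -/
noncomputable def Q (d : ℕ) (Δ : Cx V) : Polynomial ℤ :=
  ∑ F ∈ Δ.faces, (Polynomial.X - 1) ^ (d - F.card)

/-- Dehn-Sommerville relations -/
lemma ds {d : ℕ} {Δ : Cx V} (h : IsSphere d Δ) : P d Δ = Q d Δ := by
  unfold P Q
  have h1 : ∀ F ∈ Δ.faces, (Polynomial.X : Polynomial ℤ) ^ F.card * (1 - Polynomial.X) ^ (d - F.card)
      = ∑ E ∈ Δ.faces, if E ⊆ F then
        (1 - Polynomial.X) ^ (d - E.card) * (-1 : Polynomial ℤ) ^ (F.card - E.card) else 0 := by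
    intro F hF
    have hFd := card_le h F hF
    have h2 := Finset.sum_pow_mul_eq_add_pow (1 : Polynomial ℤ) (-(1 - Polynomial.X)) F
    have h3 : (1 : Polynomial ℤ) + -(1 - Polynomial.X) = Polynomial.X := by ring
    rw [h3] at h2
    rw [← h2, sum_mul, ← sum_filter]
    have h4 : Δ.faces.filter (fun E => E ⊆ F) = F.powerset := by
      ext E
      rw [mem_filter, mem_powerset]
      exact ⟨fun h => h.2, fun h => ⟨Δ.down F hF E h, h⟩⟩
    rw [h4]
    refine sum_congr rfl fun E hE => ?_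
    have hEF := card_le_card (mem_powerset.1 hE)
    rw [one_pow, one_mul, neg_pow]
    have h7 : d - E.card = (F.card - E.card) + (d - F.card) := by omega
    rw [h7, pow_add]
    ring
  rw [sum_congr rfl h1, sum_comm]
  refine sum_congr rfl fun E hE => ?_
  rw [← sum_filter, ← mul_sum]
  have h5 := euler_up h E hE
  have h6 : ∑ F ∈ Δ.faces.filter (fun F => E ⊆ F), (-1 : Polynomial ℤ) ^ (F.card - E.card) =
      (-1) ^ (d - E.card) := by
    have := congrArg (Polynomial.C : ℤ →+* Polynomial ℤ) h5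
    rw [map_sum] at this
    simpa using this
  rw [h6, ← mul_pow]
  congr 1
  ring

lemma coeff_sum (d : ℕ) (Δ : Cx V) (hd : ∀ F ∈ Δ.faces, F.card ≤ d) (p : ℕ → Polynomial ℤ) (j : ℕ) :
    (∑ F ∈ Δ.faces, p F.card).coeff j =
      ∑ k ∈ range (d + 1), (p k).coeff j * (numFaces Δ k : ℤ) := by
  rw [← sum_fiberwise_of_maps_to (s := Δ.faces) (t := range (d + 1)) (g := fun F => F.card)
    (fun F hF => mem_range.2 (Nat.lt_succ_of_le (hd F hF))), Polynomial.finsetSum_coeff]
  refine sum_congr rfl fun k _ => ?_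
  rw [sum_congr rfl (g := fun _ => p k) (fun F hF => by rw [(mem_filter.1 hF).2]),
    sum_const, Polynomial.coeff_smul, nsmul_eq_mul, mul_comm]
  rfl

lemma coeff_one_sub_pow (n a : ℕ) :
    ((1 - Polynomial.X : Polynomial ℤ) ^ n).coeff a = (-1) ^ a * (n.choose a : ℤ) := by
  have h1 : (1 - Polynomial.X : Polynomial ℤ) = -(Polynomial.X + Polynomial.C (-1)) := by
    rw [Polynomial.C_neg, Polynomial.C_1]; ring
  rcases Nat.lt_or_ge n a with h | h
  · rw [Nat.choose_eq_zero_of_lt h, Nat.cast_zero, mul_zero]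
    apply Polynomial.coeff_eq_zero_of_natDegree_lt
    refine lt_of_le_of_lt (Polynomial.natDegree_pow_le) ?_
    have h2 : (1 - Polynomial.X : Polynomial ℤ).natDegree ≤ 1 := by
      refine (Polynomial.natDegree_sub_le _ _).trans ?_
      simp
    calc n * (1 - Polynomial.X : Polynomial ℤ).natDegree ≤ n * 1 := Nat.mul_le_mul_left _ h2
      _ = n := mul_one n
      _ < a := h
  · rw [h1, neg_pow, show ((-1 : Polynomial ℤ) ^ n) = Polynomial.C ((-1 : ℤ) ^ n) by simp,
      Polynomial.coeff_C_mul, Polynomial.coeff_X_add_C_pow, ← mul_assoc, ← pow_add]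
    congr 1
    have h3 : n + (n - a) = a + 2 * (n - a) := by omega
    rw [h3, pow_add, pow_mul]
    simp

lemma coeff_P (d : ℕ) (Δ : Cx V) (hd : ∀ F ∈ Δ.faces, F.card ≤ d) (j : ℕ) (hj : j ≤ d) :
    (P d Δ).coeff j = hNum d Δ j := by
  unfold P
  rw [coeff_sum d Δ hd (fun k => Polynomial.X ^ k * (1 - Polynomial.X) ^ (d - k)) j]
  unfold hNum
  have hsub : range (j + 1) ⊆ range (d + 1) := range_subset_range.2 (by omega)
  rw [← sum_subset hsub]
  · refine sum_congr rfl fun k hk => ?_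
    have hk' := mem_range.1 hk
    rw [mul_comm (Polynomial.X ^ k), Polynomial.coeff_mul_X_pow', if_pos (by omega),
      coeff_one_sub_pow]
    have : (d - k).choose (j - k) = (d - k).choose (d - j) := by
      rw [← Nat.choose_symm (by omega)]
      congr 1
      omega
    rw [this]
  · intro k hk hk2
    have hk' := mem_range.1 hk
    have hk3 : ¬ k < j + 1 := fun h => hk2 (mem_range.2 h)
    rw [mul_comm (Polynomial.X ^ k), Polynomial.coeff_mul_X_pow', if_neg (by omega), zero_mul]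

lemma coeff_P_big (d : ℕ) (Δ : Cx V) (hd : ∀ F ∈ Δ.faces, F.card ≤ d) (j : ℕ) (hj : d < j) :
    (P d Δ).coeff j = 0 := by
  unfold P
  rw [coeff_sum d Δ hd (fun k => Polynomial.X ^ k * (1 - Polynomial.X) ^ (d - k)) j]
  refine sum_eq_zero fun k hk => ?_
  have hk' := mem_range.1 hk
  rw [mul_comm (Polynomial.X ^ k), Polynomial.coeff_mul_X_pow', if_pos (by omega),
      coeff_one_sub_pow, Nat.choose_eq_zero_of_lt (by omega), Nat.cast_zero, mul_zero, zero_mul]

lemma coeff_Q (d : ℕ) (Δ : Cx V) (hd : ∀ F ∈ Δ.faces, F.card ≤ d) (j : ℕ) (hj : j ≤ d) :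
    (Q d Δ).coeff j = hNum d Δ (d - j) := by
  unfold Q
  rw [coeff_sum d Δ hd (fun k => (Polynomial.X - 1) ^ (d - k)) j]
  unfold hNum
  have hc : ∀ n : ℕ, ((Polynomial.X - 1 : Polynomial ℤ) ^ n).coeff j =
      (-1) ^ (n + j) * (n.choose j : ℤ) := by
    intro n
    have h1 : (Polynomial.X - 1 : Polynomial ℤ) = -(1 - Polynomial.X) := by ring
    rw [h1, neg_pow, show ((-1 : Polynomial ℤ) ^ n) = Polynomial.C ((-1 : ℤ) ^ n) by simp,
      Polynomial.coeff_C_mul, coeff_one_sub_pow, ← mul_assoc, ← pow_add]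
  have hsub : range (d - j + 1) ⊆ range (d + 1) := range_subset_range.2 (by omega)
  rw [← sum_subset hsub]
  · refine sum_congr rfl fun k hk => ?_
    have hk' := mem_range.1 hk
    rw [hc]
    have h2 : d - (d - j) = j := by omega
    rw [h2]
    congr 2
    have h3 : d - k + j = (d - j - k) + 2 * j := by omega
    rw [h3, pow_add, pow_mul]
    simp
  · intro k hk hk2
    have hk' := mem_range.1 hk
    have hk3 : ¬ k < d - j + 1 := fun h => hk2 (mem_range.2 h)
    rw [hc, Nat.choose_eq_zero_of_lt (by omega), Nat.cast_zero, mul_zero, zero_mul]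

lemma eval_Q (d : ℕ) (Δ : Cx V) : (Q d Δ).eval 2 = (Δ.faces.card : ℤ) := by
  unfold Q
  rw [Polynomial.eval_finsetSum]
  simp

end euler

/-! ### The complex `K` -/

section Kpart

variable {n : ℕ} (s : Fin n → ℕ)

lemma mem_jb (F : Finset (Σ a : Fin n, Fin (s a + 1))) : F ∈ (joinBoundaries s).faces ↔
    ∀ a, ∃ x : Fin (s a + 1), (⟨a, x⟩ : Σ a : Fin n, Fin (s a + 1)) ∉ F := by
  unfold joinBoundaries
  simp only [mem_filter, mem_univ, true_and]

lemma weight {R : Type} [CommRing R] (a b : R) :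
    ∑ F ∈ (joinBoundaries s).faces, a ^ F.card * b ^ ((∑ α, (s α + 1)) - F.card) =
      ∏ α, ((a + b) ^ (s α + 1) - a ^ (s α + 1)) := by
  have h1 : ∀ α, (a + b) ^ (s α + 1) - a ^ (s α + 1) =
      ∑ G ∈ (univ : Finset (Finset (Fin (s α + 1)))).erase univ,
        a ^ G.card * b ^ (s α + 1 - G.card) := by
    intro α
    have h2 := Finset.sum_pow_mul_eq_add_pow a b (univ : Finset (Fin (s α + 1)))
    rw [card_univ, Fintype.card_fin, powerset_univ] at h2
    rw [← h2, ← Finset.add_sum_erase univ _ (mem_univ (univ : Finset (Fin (s α + 1)))), card_univ,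
      Fintype.card_fin, Nat.sub_self, pow_zero, mul_one, add_sub_cancel_left]
  rw [prod_congr rfl fun α _ => h1 α, Finset.prod_univ_sum]
  symm
  refine sum_bij' (fun p _ => (univ : Finset (Fin n)).sigma p)
    (fun F _ α => univ.filter fun x => (⟨α, x⟩ : Σ a : Fin n, Fin (s a + 1)) ∈ F) ?_ ?_ ?_ ?_ ?_
  · intro p hp
    rw [mem_jb]
    intro α
    have h3 := Fintype.mem_piFinset.1 hp α
    have h4 := (mem_erase.1 h3).1
    by_contra hcon
    push Not at hcon
    apply h4
    rw [eq_univ_iff_forall]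
    intro x
    exact (mem_sigma.1 (hcon x)).2
  · intro F hF
    rw [Fintype.mem_piFinset]
    intro α
    rw [mem_erase]
    refine ⟨fun h => ?_, mem_univ _⟩
    obtain ⟨x, hx⟩ := (mem_jb s F).1 hF α
    have := eq_univ_iff_forall.1 h x
    exact hx (mem_filter.1 this).2
  · intro p hp
    funext α
    ext x
    simp
  · intro F hF
    ext ⟨α, x⟩
    simp
  · intro p hp
    have hle : ∀ α, (p α).card ≤ s α + 1 := fun α => by
      have := card_le_univ (p α)
      rwa [Fintype.card_fin] at this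
    rw [card_sigma, prod_mul_distrib, prod_pow_eq_pow_sum, prod_pow_eq_pow_sum]
    congr 2
    rw [sum_tsub_distrib _ (fun α _ => hle α)]

lemma jb_card_le (F : Finset (Σ a : Fin n, Fin (s a + 1))) (hF : F ∈ (joinBoundaries s).faces) :
    F.card ≤ ∑ α, s α := by
  have h1 : F = (univ : Finset (Fin n)).sigma
      (fun α => univ.filter fun x => (⟨α, x⟩ : Σ a : Fin n, Fin (s a + 1)) ∈ F) := by
    ext ⟨α, x⟩
    simp
  rw [h1, card_sigma]
  refine sum_le_sum fun α _ => ?_
  obtain ⟨x, hx⟩ := (mem_jb s F).1 hF α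
  have h2 : (univ.filter fun x => (⟨α, x⟩ : Σ a : Fin n, Fin (s a + 1)) ∈ F).card <
      (univ : Finset (Fin (s α + 1))).card := by
    apply card_lt_card
    rw [ssubset_univ_iff]
    intro h
    exact hx (mem_filter.1 (eq_univ_iff_forall.1 h x)).2
  rw [card_univ, Fintype.card_fin] at h2
  omega

lemma ds_jb (d : ℕ) (hd : ∑ α, s α = d) : P d (joinBoundaries s) = Q d (joinBoundaries s) := by
  have hN : ∑ α, (s α + 1) = d + n := by
    rw [sum_add_distrib, hd]
    simp
  have h1 : (1 - Polynomial.X) ^ n * P d (joinBoundaries s) =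
      ∏ α : Fin n, (1 - (Polynomial.X : Polynomial ℤ) ^ (s α + 1)) := by
    have hw := weight s (Polynomial.X : Polynomial ℤ) (1 - Polynomial.X)
    rw [show (Polynomial.X : Polynomial ℤ) + (1 - Polynomial.X) = 1 by ring] at hw
    simp only [one_pow] at hw
    rw [← hw]
    unfold P
    rw [mul_sum]
    refine sum_congr rfl fun F hF => ?_
    have hle := jb_card_le s F hF
    rw [hN, show d + n - F.card = n + (d - F.card) by omega, pow_add]
    ring
  have h2 : (Polynomial.X - 1) ^ n * Q d (joinBoundaries s) =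
      ∏ α : Fin n, ((Polynomial.X : Polynomial ℤ) ^ (s α + 1) - 1) := by
    have hw := weight s (1 : Polynomial ℤ) (Polynomial.X - 1)
    rw [show (1 : Polynomial ℤ) + (Polynomial.X - 1) = Polynomial.X by ring] at hw
    simp only [one_pow, one_mul] at hw
    rw [← hw]
    unfold Q
    rw [mul_sum]
    refine sum_congr rfl fun F hF => ?_
    have hle := jb_card_le s F hF
    rw [hN, show d + n - F.card = n + (d - F.card) by omega, pow_add]
  have h3 : ∏ α : Fin n, ((Polynomial.X : Polynomial ℤ) ^ (s α + 1) - 1) =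
      (-1) ^ n * ∏ α : Fin n, (1 - (Polynomial.X : Polynomial ℤ) ^ (s α + 1)) := by
    have : ((-1 : Polynomial ℤ)) ^ n = ∏ _α : Fin n, (-1 : Polynomial ℤ) := by
      rw [prod_const, card_univ, Fintype.card_fin]
    rw [this, ← prod_mul_distrib]
    refine prod_congr rfl fun α _ => ?_
    ring
  have h4 : (Polynomial.X - 1 : Polynomial ℤ) ^ n ≠ 0 := by
    apply pow_ne_zero
    have := Polynomial.X_sub_C_ne_zero (1 : ℤ)
    rwa [Polynomial.C_1] at this
  apply mul_left_cancel₀ h4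
  rw [h2, h3, ← h1, ← mul_assoc, ← mul_pow]
  congr 2
  ring

lemma card_jb : ((joinBoundaries s).faces.card : ℤ) = ∏ α, ((2 : ℤ) ^ (s α + 1) - 1) := by
  have hw := weight s (1 : ℤ) 1
  simp only [one_pow, mul_one] at hw
  rw [show (1 : ℤ) + 1 = 2 by norm_num] at hw
  rw [← hw, sum_const, nsmul_eq_mul, mul_one]

end Kpart

lemma sum_dims (i q r : ℕ) : ∑ α, dims i q r α = q * i + r := by
  rw [Fin.sum_univ_castSucc]
  have h1 : ∀ a : Fin q, dims i q r a.castSucc = i := by
    intro a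
    unfold dims
    rw [if_pos]
    exact a.2
  have h2 : dims i q r (Fin.last q) = r := by
    unfold dims
    rw [if_neg]
    simp
  rw [sum_congr rfl fun a _ => h1 a, h2]
  simp

lemma card_K (i q r : ℕ) : ((K i q r).faces.card : ℤ) =
    ((2 : ℤ) ^ (i + 1) - 1) ^ q * ((2 : ℤ) ^ (r + 1) - 1) := by
  unfold K
  rw [card_jb, Fin.prod_univ_castSucc]
  have h1 : ∀ a : Fin q, dims i q r a.castSucc = i := by
    intro a
    unfold dims
    rw [if_pos]
    exact a.2
  have h2 : dims i q r (Fin.last q) = r := by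
    unfold dims
    rw [if_neg]
    simp
  rw [prod_congr rfl fun a _ => by rw [h1 a], h2]
  simp

/-! ### Equal g-numbers give equal numbers of faces -/

section compare

variable {V W : Type} [DecidableEq V] [DecidableEq W]

lemma numFaces_zero (Δ : Cx V) : numFaces Δ 0 = 1 := by
  unfold numFaces
  have : (Δ.faces.filter fun F => F.card = 0) = {∅} := by
    ext F
    simp only [mem_filter, card_eq_zero, mem_singleton]
    constructor
    · exact fun h => h.2
    · rintro rfl
      exact ⟨Δ.empty_mem, rfl⟩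
  rw [this, card_singleton]

lemma hNum_zero (d : ℕ) (Δ : Cx V) : hNum d Δ 0 = 1 := by
  unfold hNum
  simp [numFaces_zero]

lemma card_eq_of_g (d : ℕ) (Δ : Cx V) (Γ : Cx W) (h1 : ∀ F ∈ Δ.faces, F.card ≤ d)
    (h2 : ∀ F ∈ Γ.faces, F.card ≤ d) (hP1 : P d Δ = Q d Δ) (hP2 : P d Γ = Q d Γ)
    (hg : ∀ j ≤ d / 2, gNum d Δ j = gNum d Γ j) : Δ.faces.card = Γ.faces.card := by
  have hh : ∀ j ≤ d / 2, hNum d Δ j = hNum d Γ j := by
    intro j
    induction j with
    | zero => intro _; rw [hNum_zero, hNum_zero]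
    | succ j ih =>
      intro hj
      have h3 := hg (j + 1) hj
      have h4 := ih (by omega)
      unfold gNum at h3
      rw [if_neg (by omega), if_neg (by omega), Nat.add_sub_cancel, h4] at h3
      linarith
  have hall : ∀ j ≤ d, hNum d Δ j = hNum d Γ j := by
    intro j hj
    rcases Nat.lt_or_ge (d / 2) j with h | h
    · have h5 : d - (d - j) = j := by omega
      have e1 := coeff_Q d Δ h1 (d - j) (by omega)
      have e2 := coeff_Q d Γ h2 (d - j) (by omega)
      rw [h5] at e1 e2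
      rw [← e1, ← e2, ← hP1, ← hP2, coeff_P d Δ h1 _ (by omega), coeff_P d Γ h2 _ (by omega)]
      exact hh _ (by omega)
    · exact hh j h
  have hPP : P d Δ = P d Γ := by
    ext j
    rcases Nat.lt_or_ge d j with h | h
    · rw [coeff_P_big d Δ h1 j h, coeff_P_big d Γ h2 j h]
    · rw [coeff_P d Δ h1 j h, coeff_P d Γ h2 j h, hall j h]
  have hQ : Q d Δ = Q d Γ := by rw [← hP1, ← hP2, hPP]
  have := congrArg (Polynomial.eval 2) hQ
  rw [eval_Q, eval_Q] at this
  exact_mod_cast this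

end compare

/-! ### Numbers -/

/-- number of faces of `K` -/
def T (i d : ℕ) : ℤ :=
  if d = 0 then 1 else ((2 : ℤ) ^ (i + 1) - 1) ^ ((d - 1) / i) * ((2 : ℤ) ^ ((d - 1) % i + 2) - 1)

/-- sizes of the blocks of `K` -/
def Ms (i d : ℕ) : Multiset ℕ :=
  if d = 0 then 0 else Multiset.replicate ((d - 1) / i) (i + 1) + {(d - 1) % i + 2}

lemma divmod (i q r : ℕ) (hr : 1 ≤ r) (hri : r ≤ i) :
    (q * i + r - 1) / i = q ∧ (q * i + r - 1) % i = r - 1 := by
  have h : q * i + r - 1 = (r - 1) + i * q := by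
    have : i * q = q * i := mul_comm _ _
    omega
  rw [h]
  constructor
  · rw [Nat.add_mul_div_left _ _ (by omega), Nat.div_eq_of_lt (by omega), zero_add]
  · rw [Nat.add_mul_mod_self_left, Nat.mod_eq_of_lt (by omega)]

lemma T_eq (i q r : ℕ) (hr : 1 ≤ r) (hri : r ≤ i) :
    T i (q * i + r) = ((2 : ℤ) ^ (i + 1) - 1) ^ q * ((2 : ℤ) ^ (r + 1) - 1) := by
  obtain ⟨h1, h2⟩ := divmod i q r hr hri
  unfold T
  rw [if_neg (by omega), h1, h2]
  have : r - 1 + 2 = r + 1 := by omega
  rw [this]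

lemma Ms_eq (i q r : ℕ) (hr : 1 ≤ r) (hri : r ≤ i) :
    Ms i (q * i + r) = Multiset.replicate q (i + 1) + {r + 1} := by
  obtain ⟨h1, h2⟩ := divmod i q r hr hri
  unfold Ms
  rw [if_neg (by omega), h1, h2]
  have : r - 1 + 2 = r + 1 := by omega
  rw [this]

lemma T_zero (i : ℕ) : T i 0 = 1 := by simp [T]

lemma Ms_zero (i : ℕ) : Ms i 0 = 0 := by simp [Ms]

lemma exists_qr (i d : ℕ) (hi : 1 ≤ i) (hd : 1 ≤ d) : ∃ q r, 1 ≤ r ∧ r ≤ i ∧ d = q * i + r := by
  refine ⟨(d - 1) / i, (d - 1) % i + 1, by omega, ?_, ?_⟩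
  · have := Nat.mod_lt (d - 1) (show 0 < i by omega)
    omega
  · have h := Nat.div_add_mod (d - 1) i
    have : i * ((d - 1) / i) = (d - 1) / i * i := mul_comm _ _
    omega

lemma two_le_pow (m : ℕ) (hm : 1 ≤ m) : (2 : ℤ) ≤ 2 ^ m := by
  calc (2 : ℤ) = 2 ^ 1 := by norm_num
    _ ≤ 2 ^ m := pow_le_pow_right₀ (by norm_num) hm

lemma base_pos (m : ℕ) (hm : 1 ≤ m) : (0 : ℤ) < 2 ^ m - 1 := by
  have := two_le_pow m hm
  linarith

lemma T_pos (i d : ℕ) : 0 < T i d := by
  unfold T
  split_ifs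
  · norm_num
  · exact mul_pos (pow_pos (base_pos _ (by omega)) _) (base_pos _ (by omega))

lemma T_step (i d m : ℕ) (hm : 1 ≤ m) (hmi : m ≤ i) (hmd : m ≤ d) :
    T i d ≤ ((2 : ℤ) ^ (m + 1) - 1) * T i (d - m) ∧
      (T i d = ((2 : ℤ) ^ (m + 1) - 1) * T i (d - m) → Ms i d = (m + 1) ::ₘ Ms i (d - m)) := by
  obtain ⟨q, r, hr, hri, rfl⟩ := exists_qr i d (by omega) (by omega)
  rw [T_eq i q r hr hri, Ms_eq i q r hr hri]
  have hA : (0 : ℤ) < 2 ^ (i + 1) - 1 := base_pos _ (by omega)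
  rcases Nat.lt_or_ge m r with h | h
  · -- m < r
    have h1 : q * i + r - m = q * i + (r - m) := by omega
    rw [h1, T_eq i q (r - m) (by omega) (by omega)]
    have h2 : ((2 : ℤ) ^ (r + 1) - 1) < (2 ^ (m + 1) - 1) * (2 ^ (r - m + 1) - 1) := by
      have e1 : (2 : ℤ) ^ (r + 1) = 2 * (2 ^ m * 2 ^ (r - m)) := by
        rw [← pow_add, show m + (r - m) = r by omega, pow_succ]
        ring
      have e2 : (2 : ℤ) ^ (m + 1) = 2 * 2 ^ m := by rw [pow_succ]; ring
      have e3 : (2 : ℤ) ^ (r - m + 1) = 2 * 2 ^ (r - m) := by rw [pow_succ]; ring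
      rw [e1, e2, e3]
      have x1 := two_le_pow m hm
      have x2 := two_le_pow (r - m) (by omega)
      nlinarith [mul_pos (show (0 : ℤ) < 2 ^ m - 1 by linarith)
        (show (0 : ℤ) < 2 ^ (r - m) - 1 by linarith)]
    have h3 : ((2 : ℤ) ^ (i + 1) - 1) ^ q * ((2 : ℤ) ^ (r + 1) - 1) <
        ((2 : ℤ) ^ (m + 1) - 1) * (((2 : ℤ) ^ (i + 1) - 1) ^ q * ((2 : ℤ) ^ (r - m + 1) - 1)) := by
      have := mul_lt_mul_of_pos_left h2 (pow_pos hA q)
      calc _ < _ := this
        _ = _ := by ring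
    exact ⟨h3.le, fun h4 => absurd h4 h3.ne⟩
  rcases Nat.eq_or_lt_of_le h with h' | h'
  · -- m = r
    subst h'
    rw [Nat.add_sub_cancel]
    rcases Nat.eq_zero_or_pos q with rfl | hq
    · rw [zero_mul, T_zero, Ms_zero]
      simp
    · obtain ⟨p, rfl⟩ : ∃ p, q = p + 1 := ⟨q - 1, by omega⟩
      have h1 : (p + 1) * i = p * i + i := by ring
      rw [h1, T_eq i p i (by omega) le_rfl, Ms_eq i p i (by omega) le_rfl]
      refine ⟨le_of_eq (by ring), fun _ => ?_⟩
      rw [Multiset.replicate_succ, Multiset.cons_add, ← Multiset.singleton_add (i + 1),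
        ← Multiset.singleton_add (r + 1)]
      abel
  rcases Nat.eq_or_lt_of_le hmi with h'' | h''
  · -- m = i
    subst h''
    rcases Nat.eq_zero_or_pos q with rfl | hq
    · omega
    · obtain ⟨p, rfl⟩ : ∃ p, q = p + 1 := ⟨q - 1, by omega⟩
      have h1 : (p + 1) * m + r - m = p * m + r := by
        have : (p + 1) * m = p * m + m := by ring
        omega
      rw [h1, T_eq m p r hr hri, Ms_eq m p r hr hri]
      refine ⟨le_of_eq (by ring), fun _ => ?_⟩
      rw [Multiset.replicate_succ, Multiset.cons_add]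
  · -- r < m < i
    rcases Nat.eq_zero_or_pos q with rfl | hq
    · omega
    · obtain ⟨p, rfl⟩ : ∃ p, q = p + 1 := ⟨q - 1, by omega⟩
      have h1 : (p + 1) * i + r - m = p * i + (i + r - m) := by
        have : (p + 1) * i = p * i + i := by ring
        omega
      rw [h1, T_eq i p (i + r - m) (by omega) (by omega)]
      have h2 : ((2 : ℤ) ^ (i + 1) - 1) * ((2 : ℤ) ^ (r + 1) - 1) <
          (2 ^ (m + 1) - 1) * (2 ^ (i + r - m + 1) - 1) := by
        have e1 : (2 : ℤ) ^ (i + 1) = 2 ^ (m - r) * 2 ^ (i - m) * 2 ^ (r + 1) := by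
          rw [← pow_add, ← pow_add]
          congr 1
          omega
        have e2 : (2 : ℤ) ^ (m + 1) = 2 ^ (m - r) * 2 ^ (r + 1) := by
          rw [← pow_add]
          congr 1
          omega
        have e3 : (2 : ℤ) ^ (i + r - m + 1) = 2 ^ (i - m) * 2 ^ (r + 1) := by
          rw [← pow_add]
          congr 1
          omega
        rw [e1, e2, e3]
        have x1 := two_le_pow (m - r) (by omega)
        have x2 := two_le_pow (i - m) (by omega)
        have x3 := two_le_pow (r + 1) (by omega)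
        have x4 : (0 : ℤ) < (2 ^ (m - r) - 1) * (2 ^ (i - m) - 1) :=
          mul_pos (by linarith) (by linarith)
        nlinarith [mul_pos x4 (show (0 : ℤ) < 2 ^ (r + 1) by linarith)]
      have h3 : ((2 : ℤ) ^ (i + 1) - 1) ^ (p + 1) * ((2 : ℤ) ^ (r + 1) - 1) <
          ((2 : ℤ) ^ (m + 1) - 1) *
            (((2 : ℤ) ^ (i + 1) - 1) ^ p * ((2 : ℤ) ^ (i + r - m + 1) - 1)) := by
        have := mul_lt_mul_of_pos_left h2 (pow_pos hA p)
        calc _ = ((2 : ℤ) ^ (i + 1) - 1) ^ p *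
              (((2 : ℤ) ^ (i + 1) - 1) * ((2 : ℤ) ^ (r + 1) - 1)) := by ring
          _ < _ := this
          _ = _ := by ring
      exact ⟨h3.le, fun h4 => absurd h4 h3.ne⟩

/-! ### Links and missing faces -/

section links

variable {V : Type} [DecidableEq V]

lemma mem_link {Δ : Cx V} {σ : Finset V} (hσ : σ ∈ Δ.faces) (F : Finset V) :
    F ∈ (link Δ σ hσ).faces ↔ Disjoint F σ ∧ F ∪ σ ∈ Δ.faces := by
  unfold link
  simp only [mem_filter]
  constructor
  · exact fun h => h.2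
  · exact fun h => ⟨Δ.down _ h.2 _ subset_union_left, h⟩

lemma link_link (Δ : Cx V) (σ : Finset V) (hσ : σ ∈ Δ.faces) (τ : Finset V)
    (hτ : τ ∈ (link Δ σ hσ).faces) :
    link (link Δ σ hσ) τ hτ = link Δ (τ ∪ σ) ((mem_link hσ τ).1 hτ).2 := by
  apply Cx.ext
  ext F
  have hτ' := ((mem_link hσ τ).1 hτ)
  rw [mem_link, mem_link, mem_link, disjoint_union_left, disjoint_union_right, union_assoc]
  constructor
  · rintro ⟨h1, ⟨h2, _⟩, h4⟩
    exact ⟨⟨h1, h2⟩, h4⟩
  · rintro ⟨⟨h1, h2⟩, h4⟩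
    exact ⟨h1, ⟨h2, hτ'.1⟩, h4⟩

lemma link_sphere {d : ℕ} {Δ : Cx V} (h : IsSphere d Δ) (σ : Finset V) (hσ : σ ∈ Δ.faces) :
    IsSphere (d - σ.card) (link Δ σ hσ) := by
  have hσd := card_le h σ hσ
  constructor
  · intro F hF
    obtain ⟨h1, h2⟩ := (mem_link hσ F).1 hF
    obtain ⟨G, hG, hFG, hGd⟩ := h.pure _ h2
    have hσG : σ ⊆ G := subset_union_right.trans hFG
    refine ⟨G \ σ, ?_, ?_, ?_⟩
    · rw [mem_link, sdiff_union_of_subset hσG]
      exact ⟨sdiff_disjoint, hG⟩
    · intro x hx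
      exact mem_sdiff.2 ⟨hFG (mem_union_left _ hx), disjoint_left.1 h1 hx⟩
    · rw [card_sdiff_of_subset hσG, hGd]
  · intro τ hτ k
    obtain ⟨h1, h2⟩ := (mem_link hσ τ).1 hτ
    rw [link_link, h.link_homology, card_union_of_disjoint h1]
    by_cases h3 : k + (τ.card + σ.card) = d
    · rw [if_pos h3, if_pos (by omega)]
    · rw [if_neg h3, if_neg (by omega)]

lemma exists_missing_subset (Δ : Cx V) (S : Finset V) (hS : ∀ v ∈ S, {v} ∈ Δ.faces)
    (hS2 : S ∉ Δ.faces) : ∃ τ, τ ⊆ S ∧ IsMissing Δ τ := by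
  have hne : (S.powerset.filter fun F => F ∉ Δ.faces).Nonempty :=
    ⟨S, mem_filter.2 ⟨mem_powerset_self S, hS2⟩⟩
  obtain ⟨τ, hτ, hmin⟩ := exists_min_image _ card hne
  obtain ⟨h1, h2⟩ := mem_filter.1 hτ
  have h3 := mem_powerset.1 h1
  refine ⟨τ, h3, fun v hv => hS v (h3 hv), h2, fun ρ hρ => ?_⟩
  by_contra h4
  have h5 := hmin ρ (mem_filter.2 ⟨mem_powerset.2 (hρ.1.trans h3), h4⟩)
  have h6 := card_lt_card hρ
  omega

lemma link_missing {Δ : Cx V} (σ : Finset V) (hσ : σ ∈ Δ.faces) (τ : Finset V)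
    (hτ : IsMissing (link Δ σ hσ) τ) : ∃ τ', IsMissing Δ τ' ∧ τ ⊆ τ' := by
  obtain ⟨h1, h2, h3⟩ := hτ
  have hdis : Disjoint τ σ := by
    rw [disjoint_left]
    intro v hv
    have := ((mem_link hσ _).1 (h1 v hv)).1
    rw [disjoint_singleton_left] at this
    exact this
  have hno : τ ∪ σ ∉ Δ.faces := fun h => h2 ((mem_link hσ τ).2 ⟨hdis, h⟩)
  obtain ⟨τ', hτ'1, hτ'2⟩ := exists_missing_subset Δ (τ ∪ σ) (by
    intro v hv
    rcases mem_union.1 hv with h | h
    · have h4 := ((mem_link hσ _).1 (h1 v h)).2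
      exact Δ.down _ h4 _ subset_union_left
    · exact Δ.down _ hσ _ (singleton_subset_iff.2 h)) hno
  refine ⟨τ', hτ'2, fun x hx => ?_⟩
  by_contra hx'
  have h4 : τ.erase x ⊂ τ := erase_ssubset hx
  have h5 := ((mem_link hσ _).1 (h3 _ h4)).2
  apply hτ'2.2.1
  refine Δ.down _ h5 _ ?_
  intro y hy
  rcases mem_union.1 (hτ'1 hy) with h | h
  · refine mem_union_left _ (mem_erase.2 ⟨?_, h⟩)
    rintro rfl
    exact hx' hy
  · exact mem_union_right _ h

lemma exists_missing {d : ℕ} {Δ : Cx V} (h : IsSphere d Δ) (hd : 1 ≤ d) :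
    ∃ τ, IsMissing Δ τ ∧ 2 ≤ τ.card := by
  let W : Finset V := Δ.faces.biUnion id
  have hW : ∀ v, v ∈ W ↔ {v} ∈ Δ.faces := by
    intro v
    rw [mem_biUnion]
    constructor
    · rintro ⟨F, hF, hv⟩
      exact Δ.down F hF _ (singleton_subset_iff.2 hv)
    · intro hv
      exact ⟨{v}, hv, mem_singleton_self v⟩
  have hsub : ∀ F ∈ Δ.faces, F ⊆ W := fun F hF v hv =>
    (hW v).2 (Δ.down F hF _ (singleton_subset_iff.2 hv))
  have hWn : W ∉ Δ.faces := by
    intro hmem
    have h1 : Δ.faces.filter (fun F => (∅ : Finset V) ⊆ F) = W.powerset := by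
      ext F
      rw [mem_filter, mem_powerset]
      exact ⟨fun h => hsub F h.1, fun h => ⟨Δ.down W hmem F h, empty_subset F⟩⟩
    have h2 := euler_up h ∅ Δ.empty_mem
    rw [h1] at h2
    simp only [card_empty, Nat.sub_zero] at h2
    obtain ⟨G, hG, _, hGd⟩ := h.pure ∅ Δ.empty_mem
    have hne : W.Nonempty := by
      obtain ⟨x, hx⟩ : G.Nonempty := card_pos.1 (by omega)
      exact ⟨x, hsub G hG hx⟩
    rw [sum_powerset_neg_one_pow_card_of_nonempty hne] at h2
    exact (pow_ne_zero d (by norm_num : (-1 : ℤ) ≠ 0)) h2.symm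
  obtain ⟨τ, hτ1, hτ2⟩ := exists_missing_subset Δ W (fun v hv => (hW v).1 hv) hWn
  refine ⟨τ, hτ2, ?_⟩
  by_contra hlt
  have h3 : τ.card = 0 ∨ τ.card = 1 := by omega
  rcases h3 with h3 | h3
  · rw [card_eq_zero] at h3
    subst h3
    exact hτ2.2.1 Δ.empty_mem
  · obtain ⟨v, rfl⟩ := card_eq_one.1 h3
    exact hτ2.2.1 (hτ2.1 v (mem_singleton_self v))

end links

/-! ### The main induction -/

section main

variable {V : Type} [DecidableEq V]

/-- `Δ` is the join of the boundary complexes of the simplices with vertex sets `B ∈ 𝓑`. -/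
def IsJoin (Δ : Cx V) (B : Finset (Finset V)) : Prop :=
  (∀ b ∈ B, ∀ b' ∈ B, b ≠ b' → Disjoint b b') ∧
    ∀ F, F ∈ Δ.faces ↔ (∀ x ∈ F, ∃ b ∈ B, x ∈ b) ∧ ∀ b ∈ B, ¬ b ⊆ F

/-- the faces which meet `τ` in `G` -/
def fib (Δ : Cx V) (τ G : Finset V) : Finset (Finset V) := Δ.faces.filter fun F => F ∩ τ = G

lemma card_fib (Δ : Cx V) (τ : Finset V) (hτ : τ ∉ Δ.faces) :
    Δ.faces.card = ∑ G ∈ τ.powerset.erase τ, (fib Δ τ G).card := by
  have h1 := card_eq_sum_card_fiberwise (s := Δ.faces) (t := τ.powerset) (f := fun F => F ∩ τ)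
    (fun F _ => mem_powerset.2 inter_subset_right)
  rw [h1, ← add_sum_erase _ _ (mem_powerset_self τ)]
  have h2 : (Δ.faces.filter fun F => F ∩ τ = τ) = ∅ := by
    rw [filter_eq_empty_iff]
    intro F hF h
    exact hτ (Δ.down F hF τ (by rw [← h]; exact inter_subset_left))
  rw [h2, card_empty, zero_add]
  rfl

lemma link_disj {Δ : Cx V} {τ : Finset V} (hτ : τ ∉ Δ.faces) {v : V} (hv : v ∈ τ)
    (hl : τ.erase v ∈ Δ.faces) (H : Finset V) (hH : H ∈ (link Δ (τ.erase v) hl).faces) :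
    Disjoint H τ := by
  obtain ⟨h1, h2⟩ := (mem_link hl H).1 hH
  rw [disjoint_left] at h1 ⊢
  intro x hx hxτ
  by_cases hxv : x = v
  · subst hxv
    apply hτ
    refine Δ.down _ h2 _ ?_
    intro y hy
    by_cases hyx : y = x
    · rw [hyx]; exact mem_union_left _ hx
    · exact mem_union_right _ (mem_erase.2 ⟨hyx, hy⟩)
  · exact h1 hx (mem_erase.2 ⟨hxv, hxτ⟩)

lemma image_sub_fib {Δ : Cx V} {τ : Finset V} (hτ : τ ∉ Δ.faces) {v : V} (hv : v ∈ τ)
    (hl : τ.erase v ∈ Δ.faces) (G : Finset V) (hG : G ⊆ τ.erase v) :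
    (link Δ (τ.erase v) hl).faces.image (fun H => H ∪ G) ⊆ fib Δ τ G := by
  intro F hF
  obtain ⟨H, hH, rfl⟩ := mem_image.1 hF
  have hd := link_disj hτ hv hl H hH
  have hGτ : G ⊆ τ := hG.trans (erase_subset _ _)
  obtain ⟨_, h2⟩ := (mem_link hl H).1 hH
  refine mem_filter.2 ⟨Δ.down _ h2 _ (union_subset_union_right hG), ?_⟩
  rw [union_inter_distrib_right, disjoint_iff_inter_eq_empty.1 hd, empty_union,
    inter_eq_left.2 hGτ]

lemma card_image_link {Δ : Cx V} {τ : Finset V} (hτ : τ ∉ Δ.faces) {v : V} (hv : v ∈ τ)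
    (hl : τ.erase v ∈ Δ.faces) (G : Finset V) (hG : G ⊆ τ.erase v) :
    ((link Δ (τ.erase v) hl).faces.image (fun H => H ∪ G)).card =
      (link Δ (τ.erase v) hl).faces.card := by
  apply card_image_of_injOn
  intro H hH H' hH' he
  have h1 := link_disj hτ hv hl H hH
  have h2 := link_disj hτ hv hl H' hH'
  have hGτ : G ⊆ τ := hG.trans (erase_subset _ _)
  have h3 := disjoint_of_subset_right hGτ h1
  have h4 := disjoint_of_subset_right hGτ h2
  have h5 : (H ∪ G) \ G = (H' ∪ G) \ G := by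
    simp only at he
    rw [he]
  rwa [union_sdiff_cancel_right h3, union_sdiff_cancel_right h4] at h5

lemma card_proper (τ : Finset V) : ((τ.powerset.erase τ).card : ℤ) = 2 ^ τ.card - 1 := by
  rw [card_erase_of_mem (mem_powerset_self τ), card_powerset]
  have : 1 ≤ 2 ^ τ.card := Nat.one_le_two_pow
  rw [Nat.cast_sub this]
  simp

theorem main_ind (i : ℕ) : ∀ (d : ℕ) (Δ : Cx V), IsSphere d Δ →
    (∀ τ, IsMissing Δ τ → τ.card ≤ i + 1) →
    T i d ≤ (Δ.faces.card : ℤ) ∧ ((Δ.faces.card : ℤ) = T i d →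
      ∃ B : Finset (Finset V), IsJoin Δ B ∧ B.val.map card = Ms i d) := by
  intro d
  induction d using Nat.strong_induction_on with
  | _ d ih =>
  intro Δ hΔ hmiss
  rcases Nat.eq_zero_or_pos d with rfl | hd
  · have h1 : Δ.faces = {∅} := by
      ext F
      rw [mem_singleton]
      constructor
      · intro hF
        have := card_le hΔ F hF
        exact card_eq_zero.1 (by omega)
      · rintro rfl
        exact Δ.empty_mem
    refine ⟨by rw [h1, T_zero]; simp, fun _ => ⟨∅, ⟨by simp, ?_⟩, by rw [Ms_zero]; rfl⟩⟩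
    intro F
    rw [h1, mem_singleton]
    constructor
    · rintro rfl
      simp
    · rintro ⟨h2, _⟩
      rw [eq_empty_iff_forall_notMem]
      intro x hx
      obtain ⟨b, hb, _⟩ := h2 x hx
      exact notMem_empty b hb
  obtain ⟨τ, hτ, hτ2⟩ := exists_missing hΔ hd
  have hτn := hτ.2.1
  have hτi := hmiss τ hτ
  obtain ⟨m, hm⟩ : ∃ m, τ.card = m + 1 := ⟨τ.card - 1, by omega⟩
  have hl : ∀ v ∈ τ, τ.erase v ∈ Δ.faces := fun v hv => hτ.2.2 _ (erase_ssubset hv)
  have hlc : ∀ v ∈ τ, (τ.erase v).card = m := fun v hv => by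
    rw [card_erase_of_mem hv, hm]; rfl
  have hτne : τ.Nonempty := card_pos.1 (by omega)
  obtain ⟨v0, hv0⟩ := hτne
  have hmd : m ≤ d := by
    rw [← hlc v0 hv0]
    exact card_le hΔ _ (hl v0 hv0)
  -- the links
  have hL : ∀ v (hv : v ∈ τ), T i (d - m) ≤ ((link Δ (τ.erase v) (hl v hv)).faces.card : ℤ) ∧
      (((link Δ (τ.erase v) (hl v hv)).faces.card : ℤ) = T i (d - m) →
      ∃ B : Finset (Finset V), IsJoin (link Δ (τ.erase v) (hl v hv)) B ∧
        B.val.map card = Ms i (d - m)) := by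
    intro v hv
    have h1 := link_sphere hΔ (τ.erase v) (hl v hv)
    rw [hlc v hv] at h1
    refine ih (d - m) (by omega) _ h1 ?_
    intro ρ hρ
    obtain ⟨ρ', hρ', hs⟩ := link_missing _ (hl v hv) ρ hρ
    exact (card_le_card hs).trans (hmiss ρ' hρ')
  -- fibres
  have hfib : ∀ G ∈ τ.powerset.erase τ, ∀ v (hv : v ∈ τ), v ∉ G →
      (link Δ (τ.erase v) (hl v hv)).faces.image (fun H => H ∪ G) ⊆ fib Δ τ G ∧
      ((link Δ (τ.erase v) (hl v hv)).faces.image (fun H => H ∪ G)).card =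
        (link Δ (τ.erase v) (hl v hv)).faces.card := by
    intro G hG v hv hvG
    have h1 : G ⊆ τ.erase v := by
      intro x hx
      refine mem_erase.2 ⟨?_, mem_powerset.1 (mem_erase.1 hG).2 hx⟩
      rintro rfl
      exact hvG hx
    exact ⟨image_sub_fib hτn hv (hl v hv) G h1, card_image_link hτn hv (hl v hv) G h1⟩
  have hexv : ∀ G ∈ τ.powerset.erase τ, ∃ v ∈ τ, v ∉ G := by
    intro G hG
    obtain ⟨h1, h2⟩ := mem_erase.1 hG
    by_contra hcon
    push Not at hcon
    exact h1 (Subset.antisymm (mem_powerset.1 h2) hcon)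
  have hge : ∀ G ∈ τ.powerset.erase τ, T i (d - m) ≤ ((fib Δ τ G).card : ℤ) := by
    intro G hG
    obtain ⟨v, hv, hvG⟩ := hexv G hG
    obtain ⟨h1, h2⟩ := hfib G hG v hv hvG
    have h3 := card_le_card h1
    rw [h2] at h3
    have h4 := (hL v hv).1
    have h5 : ((link Δ (τ.erase v) (hl v hv)).faces.card : ℤ) ≤ ((fib Δ τ G).card : ℤ) := by
      exact_mod_cast h3
    linarith
  have hcard : (Δ.faces.card : ℤ) = ∑ G ∈ τ.powerset.erase τ, ((fib Δ τ G).card : ℤ) := by
    rw [card_fib Δ τ hτn]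
    push_cast
    rfl
  have hsum : ∑ _G ∈ τ.powerset.erase τ, T i (d - m) = ((2 : ℤ) ^ (m + 1) - 1) * T i (d - m) := by
    rw [sum_const, nsmul_eq_mul, card_proper, hm]
  have hle : ((2 : ℤ) ^ (m + 1) - 1) * T i (d - m) ≤ (Δ.faces.card : ℤ) := by
    rw [hcard, ← hsum]
    exact sum_le_sum hge
  obtain ⟨hT1, hT2⟩ := T_step i d m (by omega) (by omega) hmd
  refine ⟨hT1.trans hle, fun heq => ?_⟩
  have heq2 : T i d = ((2 : ℤ) ^ (m + 1) - 1) * T i (d - m) := by
    rw [heq] at hle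
    exact le_antisymm hT1 hle
  -- all fibres have the minimal size
  have hfe : ∀ G ∈ τ.powerset.erase τ, ((fib Δ τ G).card : ℤ) = T i (d - m) := by
    have h1 : ∑ G ∈ τ.powerset.erase τ, T i (d - m) =
        ∑ G ∈ τ.powerset.erase τ, ((fib Δ τ G).card : ℤ) := by
      rw [← hcard, hsum, heq, heq2]
    intro G hG
    exact ((sum_eq_sum_iff_of_le hge).1 h1 G hG).symm
  have hLe : ∀ v (hv : v ∈ τ), ((link Δ (τ.erase v) (hl v hv)).faces.card : ℤ) = T i (d - m) ∧
      ∀ G ∈ τ.powerset.erase τ, v ∉ G →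
        (link Δ (τ.erase v) (hl v hv)).faces.image (fun H => H ∪ G) = fib Δ τ G := by
    intro v hv
    have key : ∀ G ∈ τ.powerset.erase τ, v ∉ G →
        ((link Δ (τ.erase v) (hl v hv)).faces.card : ℤ) = T i (d - m) ∧
        (link Δ (τ.erase v) (hl v hv)).faces.image (fun H => H ∪ G) = fib Δ τ G := by
      intro G hG hvG
      obtain ⟨h1, h2⟩ := hfib G hG v hv hvG
      have h3 := card_le_card h1
      rw [h2] at h3
      have h4 := (hL v hv).1
      have h5 := hfe G hG
      have h6 : ((link Δ (τ.erase v) (hl v hv)).faces.card : ℤ) ≤ ((fib Δ τ G).card : ℤ) := by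
        exact_mod_cast h3
      have h7 : ((link Δ (τ.erase v) (hl v hv)).faces.card : ℤ) = T i (d - m) := by
        linarith
      refine ⟨h7, eq_of_subset_of_card_le h1 ?_⟩
      rw [h2]
      have : ((fib Δ τ G).card : ℤ) ≤ ((link Δ (τ.erase v) (hl v hv)).faces.card : ℤ) := by
        linarith
      exact_mod_cast this
    have hem : (∅ : Finset V) ∈ τ.powerset.erase τ := by
      refine mem_erase.2 ⟨?_, empty_mem_powerset τ⟩
      rintro h
      rw [← h] at hv0
      exact notMem_empty _ hv0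
    exact ⟨(key ∅ hem (notMem_empty v)).1, fun G hG hvG => (key G hG hvG).2⟩
  have hem : (∅ : Finset V) ∈ τ.powerset.erase τ := by
    refine mem_erase.2 ⟨?_, empty_mem_powerset τ⟩
    rintro h
    rw [← h] at hv0
    exact notMem_empty _ hv0
  have hbase : ∀ v (hv : v ∈ τ), (link Δ (τ.erase v) (hl v hv)).faces = fib Δ τ ∅ := by
    intro v hv
    have h1 := (hLe v hv).2 ∅ hem (notMem_empty v)
    rw [← h1]
    simp
  have hall : ∀ G ∈ τ.powerset.erase τ, (fib Δ τ ∅).image (fun H => H ∪ G) = fib Δ τ G := by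
    intro G hG
    obtain ⟨v, hv, hvG⟩ := hexv G hG
    rw [← (hLe v hv).2 G hG hvG, hbase v hv]
  obtain ⟨B, ⟨hB1, hB2⟩, hB3⟩ := (hL v0 hv0).2 (hLe v0 hv0).1
  rw [hbase v0 hv0] at hB2
  have hfaces : ∀ F, F ∈ Δ.faces ↔ ¬ τ ⊆ F ∧ F \ τ ∈ fib Δ τ ∅ := by
    intro F
    constructor
    · intro hF
      refine ⟨fun h => hτn (Δ.down F hF τ h), ?_⟩
      refine mem_filter.2 ⟨Δ.down F hF _ sdiff_subset, ?_⟩
      exact disjoint_iff_inter_eq_empty.1 sdiff_disjoint
    · rintro ⟨h1, h2⟩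
      have hG : F ∩ τ ∈ τ.powerset.erase τ := by
        refine mem_erase.2 ⟨fun h => h1 ?_, mem_powerset.2 inter_subset_right⟩
        rw [← h]
        exact inter_subset_left
      have h3 : (F \ τ) ∪ (F ∩ τ) ∈ fib Δ τ (F ∩ τ) := by
        rw [← hall _ hG]
        exact mem_image_of_mem _ h2
      rw [sdiff_union_inter] at h3
      exact (mem_filter.1 h3).1
  -- blocks
  have hcards : ∀ b ∈ B, 2 ≤ b.card := by
    intro b hb
    have h1 : b.card ∈ B.val.map card := Multiset.mem_map_of_mem card hb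
    rw [hB3] at h1
    unfold Ms at h1
    split_ifs at h1
    · exact absurd h1 (Multiset.notMem_zero _)
    · rcases Multiset.mem_add.1 h1 with h2 | h2
      · have := Multiset.eq_of_mem_replicate h2
        omega
      · have := Multiset.mem_singleton.1 h2
        omega
  have hbdis : ∀ b ∈ B, Disjoint b τ := by
    intro b hb
    rw [disjoint_left]
    intro x hx hxτ
    have h1 : ({x} : Finset V) ∈ fib Δ τ ∅ := by
      rw [hB2]
      refine ⟨fun y hy => ⟨b, hb, by rw [mem_singleton.1 hy]; exact hx⟩, fun b' hb' h => ?_⟩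
      have := card_le_card h
      have := hcards b' hb'
      rw [card_singleton] at *
      omega
    have h2 := (mem_filter.1 h1).2
    have h3 : x ∈ ({x} : Finset V) ∩ τ := mem_inter.2 ⟨mem_singleton_self x, hxτ⟩
    rw [h2] at h3
    exact notMem_empty x h3
  have hτB : τ ∉ B := by
    intro h
    have h1 := disjoint_left.1 (hbdis τ h) hv0
    exact h1 hv0
  refine ⟨insert τ B, ⟨?_, ?_⟩, ?_⟩
  · intro b hb b' hb' hne
    rcases mem_insert.1 hb with rfl | h1 <;> rcases mem_insert.1 hb' with rfl | h2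
    · exact absurd rfl hne
    · exact (hbdis b' h2).symm
    · exact hbdis b h1
    · exact hB1 b h1 b' h2 hne
  · intro F
    rw [hfaces, hB2]
    constructor
    · rintro ⟨h1, h2, h3⟩
      refine ⟨fun x hx => ?_, fun b hb hbF => ?_⟩
      · by_cases hxτ : x ∈ τ
        · exact ⟨τ, mem_insert_self _ _, hxτ⟩
        · obtain ⟨b, hb, hxb⟩ := h2 x (mem_sdiff.2 ⟨hx, hxτ⟩)
          exact ⟨b, mem_insert_of_mem hb, hxb⟩
      · rcases mem_insert.1 hb with rfl | hb
        · exact h1 hbF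
        · apply h3 b hb
          intro y hy
          exact mem_sdiff.2 ⟨hbF hy, disjoint_left.1 (hbdis b hb) hy⟩
    · rintro ⟨h1, h2⟩
      refine ⟨h2 τ (mem_insert_self _ _), fun x hx => ?_, fun b hb hbF => ?_⟩
      · obtain ⟨hx1, hx2⟩ := mem_sdiff.1 hx
        obtain ⟨b, hb, hxb⟩ := h1 x hx1
        rcases mem_insert.1 hb with rfl | hb
        · exact absurd hxb hx2
        · exact ⟨b, hb, hxb⟩
      · exact h2 b (mem_insert_of_mem hb) (hbF.trans sdiff_subset)
  · rw [insert_val_of_notMem hτB, Multiset.map_cons, hB3, hT2 heq2, hm]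

end main

/-! ### The isomorphism -/

section iso

variable {V : Type} [DecidableEq V]

lemma iso_of_join (i q r : ℕ) (hi : 1 ≤ i) (hr : 1 ≤ r) (Δ : Cx V) (B : Finset (Finset V))
    (hB : IsJoin Δ B) (hc : B.val.map card = Multiset.replicate q (i + 1) + {r + 1}) :
    Isomorphic (K i q r) Δ := by
  classical
  -- the last block
  have h1 : r + 1 ∈ B.val.map card := by
    rw [hc]
    exact Multiset.mem_add.2 (Or.inr (Multiset.mem_singleton_self _))
  obtain ⟨b0, hb0, hb0c⟩ := Multiset.mem_map.1 h1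
  have hb0' : b0 ∈ B := hb0
  have h2 : (B.erase b0).val.map card = Multiset.replicate q (i + 1) := by
    have h3 : B.val = b0 ::ₘ (B.erase b0).val := by
      rw [erase_val]
      exact (Multiset.cons_erase hb0).symm
    rw [h3, Multiset.map_cons, hb0c, ← Multiset.singleton_add, add_comm] at hc
    exact add_right_cancel hc
  have h3 : (B.erase b0).card = q := by
    have := congrArg Multiset.card h2
    rw [Multiset.card_map, Multiset.card_replicate] at this
    exact this
  have h4 : ∀ b ∈ B.erase b0, b.card = i + 1 := by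
    intro b hb
    have : b.card ∈ (B.erase b0).val.map card := Multiset.mem_map_of_mem card hb
    rw [h2] at this
    exact Multiset.eq_of_mem_replicate this
  let e := (B.erase b0).equivFinOfCardEq h3
  let blk : Fin (q + 1) → Finset V := fun a =>
    if h : (a : ℕ) < q then (e.symm ⟨a, h⟩).1 else b0
  have hblk : ∀ a, blk a ∈ B := by
    intro a
    show (if h : (a : ℕ) < q then (e.symm ⟨a, h⟩).1 else b0) ∈ B
    split_ifs with h
    · exact mem_of_mem_erase (e.symm ⟨a, h⟩).2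
    · exact hb0'
  have hblkc : ∀ a, (blk a).card = dims i q r a + 1 := by
    intro a
    show (if h : (a : ℕ) < q then (e.symm ⟨a, h⟩).1 else b0).card = dims i q r a + 1
    unfold dims
    split_ifs with h
    · exact h4 _ (e.symm ⟨a, h⟩).2
    · exact hb0c
  have hblki : Function.Injective blk := by
    intro a a' h
    have h' : (if h : (a : ℕ) < q then (e.symm ⟨a, h⟩).1 else b0) =
        (if h : (a' : ℕ) < q then (e.symm ⟨a', h⟩).1 else b0) := h
    by_cases h5 : (a : ℕ) < q <;> by_cases h6 : (a' : ℕ) < q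
    · rw [dif_pos h5, dif_pos h6] at h'
      have h7 := e.symm.injective (Subtype.ext h')
      exact Fin.ext (by simpa using congrArg Fin.val h7)
    · rw [dif_pos h5, dif_neg h6] at h'
      exact absurd h' (ne_of_mem_erase (e.symm ⟨a, h5⟩).2)
    · rw [dif_neg h5, dif_pos h6] at h'
      exact absurd h'.symm (ne_of_mem_erase (e.symm ⟨a', h6⟩).2)
    · exact Fin.ext (by have := a.2; have := a'.2; omega)
  have hblks : ∀ b ∈ B, ∃ a, blk a = b := by
    intro b hb
    by_cases h : b = b0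
    · refine ⟨Fin.last q, ?_⟩
      show (if h : ((Fin.last q : Fin (q + 1)) : ℕ) < q then
        (e.symm ⟨(Fin.last q : Fin (q + 1)), h⟩).1 else b0) = b
      rw [dif_neg (by simp), h]
    · have hb' : b ∈ B.erase b0 := mem_erase.2 ⟨h, hb⟩
      refine ⟨(e ⟨b, hb'⟩).castSucc, ?_⟩
      show (if h : (((e ⟨b, hb'⟩).castSucc : Fin (q + 1)) : ℕ) < q then
        (e.symm ⟨((e ⟨b, hb'⟩).castSucc : Fin (q + 1)), h⟩).1 else b0) = b
      rw [dif_pos (by simp)]
      have : (⟨(((e ⟨b, hb'⟩).castSucc : Fin (q + 1)) : ℕ), by simp⟩ : Fin q) = e ⟨b, hb'⟩ :=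
        Fin.ext (by simp)
      rw [this, Equiv.symm_apply_apply]
  -- the map of vertices
  let f : ∀ a, Fin (dims i q r a + 1) ≃ {x // x ∈ blk a} := fun a =>
    ((blk a).equivFinOfCardEq (hblkc a)).symm
  let φ : (Σ a : Fin (q + 1), Fin (dims i q r a + 1)) → V := fun w => (f w.1 w.2).1
  have hφm : ∀ a x, φ ⟨a, x⟩ ∈ blk a := fun a x => (f a x).2
  have hφi : Function.Injective φ := by
    rintro ⟨a, x⟩ ⟨a', x'⟩ h
    have h5 : a = a' := by
      by_contra hne
      have h6 := hB.1 _ (hblk a) _ (hblk a') (fun h => hne (hblki h))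
      have h7 := hφm a x
      rw [h] at h7
      exact disjoint_left.1 h6 h7 (hφm a' x')
    subst h5
    have h6 : f a x = f a x' := Subtype.ext h
    rw [(f a).injective h6]
  have hφs : ∀ a, ∀ v ∈ blk a, ∃ x, φ ⟨a, x⟩ = v := by
    intro a v hv
    refine ⟨(f a).symm ⟨v, hv⟩, ?_⟩
    show (f a ((f a).symm ⟨v, hv⟩)).1 = v
    rw [Equiv.apply_symm_apply]
  -- faces
  have hface : ∀ F : Finset (Σ a : Fin (q + 1), Fin (dims i q r a + 1)),
      F ∈ (K i q r).faces ↔ F.image φ ∈ Δ.faces := by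
    intro F
    unfold K
    rw [mem_jb, hB.2]
    constructor
    · intro h
      refine ⟨fun v hv => ?_, fun b hb hbF => ?_⟩
      · obtain ⟨⟨a, x⟩, _, rfl⟩ := mem_image.1 hv
        exact ⟨blk a, hblk a, hφm a x⟩
      · obtain ⟨a, rfl⟩ := hblks b hb
        obtain ⟨x, hx⟩ := h a
        obtain ⟨w, hw, hwe⟩ := mem_image.1 (hbF (hφm a x))
        rw [hφi hwe] at hw
        exact hx hw
    · rintro ⟨_, h2⟩ a
      by_contra hcon
      push Not at hcon
      apply h2 _ (hblk a)
      intro v hv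
      obtain ⟨x, rfl⟩ := hφs a v hv
      exact mem_image_of_mem φ (hcon x)
  have hK1 : ∀ w : (Σ a : Fin (q + 1), Fin (dims i q r a + 1)), {w} ∈ (K i q r).faces := by
    rintro ⟨a, x⟩
    unfold K
    rw [mem_jb]
    intro a'
    have hd : 1 ≤ dims i q r a' := by
      unfold dims
      split_ifs <;> omega
    obtain ⟨y, hy⟩ : ∃ y : Fin (dims i q r a' + 1), (⟨a', y⟩ :
        Σ a : Fin (q + 1), Fin (dims i q r a + 1)) ≠ ⟨a, x⟩ := by
      by_contra hcon
      push Not at hcon
      have h5 := hcon ⟨0, by omega⟩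
      have h6 := hcon ⟨1, by omega⟩
      rw [← h6] at h5
      have h7 := eq_of_heq (Sigma.mk.inj h5).2
      have h8 := congrArg Fin.val h7
      simp at h8
    exact ⟨y, fun h => hy (mem_singleton.1 h)⟩
  have hVm : ∀ v, {v} ∈ Δ.faces → ∃ w, φ w = v := by
    intro v hv
    obtain ⟨b, hb, hvb⟩ := ((hB.2 _).1 hv).1 v (mem_singleton_self v)
    obtain ⟨a, rfl⟩ := hblks b hb
    obtain ⟨x, hx⟩ := hφs a v hvb
    exact ⟨⟨a, x⟩, hx⟩
  have hφv : ∀ w, {φ w} ∈ Δ.faces := by
    intro w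
    have := (hface {w}).1 (hK1 w)
    rwa [image_singleton] at this
  let E : {w // {w} ∈ (K i q r).faces} ≃ {v // {v} ∈ Δ.faces} :=
    Equiv.ofBijective (fun w => ⟨φ w.1, hφv w.1⟩) (by
      constructor
      · intro w w' h
        exact Subtype.ext (hφi (congrArg Subtype.val h))
      · rintro ⟨v, hv⟩
        obtain ⟨w, rfl⟩ := hVm v hv
        exact ⟨⟨w, hK1 w⟩, rfl⟩)
  refine ⟨E, fun F => ?_⟩
  rw [hface]
  have : (F.map E.toEmbedding).map (Function.Embedding.subtype _) =
      (F.map (Function.Embedding.subtype _)).image φ := by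
    ext v
    simp only [mem_map, mem_image, Function.Embedding.subtype_apply, Equiv.coe_toEmbedding]
    constructor
    · rintro ⟨v', ⟨w, hw, rfl⟩, rfl⟩
      exact ⟨w.1, ⟨w, hw, rfl⟩, rfl⟩
    · rintro ⟨w', ⟨w, hw, rfl⟩, rfl⟩
      exact ⟨E w, ⟨w, hw, rfl⟩, rfl⟩
  rw [this]

end iso

/-- Uniqueness of the minimizer. Let `i ≥ 1` and `d = q i + r` with `1 ≤ r ≤ i`. If `Δ` is a
`ℤ/2`-homology `(d-1)`-sphere all of whose missing faces have dimension at most `i` (at most `i + 1`
vertices), and `g_j(Δ) = g_j(K(i,d-1))` for all `0 ≤ j ≤ ⌊d/2⌋`, then `Δ` is isomorphic to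
`K(i,d-1)`. -/
theorem result (i q r d : ℕ) (hi : 1 ≤ i) (hr : 1 ≤ r) (hri : r ≤ i) (hd : d = q * i + r)
    (V : Type) [DecidableEq V] (Δ : Cx V) (hΔ : IsSphere d Δ)
    (hmiss : ∀ τ, IsMissing Δ τ → τ.card ≤ i + 1)
    (hg : ∀ j ≤ d / 2, gNum d Δ j = gNum d (K i q r) j) :
    Isomorphic (K i q r) Δ := by
  have hsum : ∑ α, dims i q r α = d := by rw [sum_dims, hd]
  have hc := card_eq_of_g d Δ (K i q r) (fun F hF => card_le hΔ F hF)
    (fun F hF => hsum ▸ jb_card_le _ F hF) (ds hΔ) (ds_jb _ d hsum) hg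
  have hT : (Δ.faces.card : ℤ) = T i d := by
    rw [hc, card_K, hd, T_eq i q r hr hri]
  obtain ⟨B, hB1, hB2⟩ := (main_ind i d Δ hΔ hmiss).2 hT
  rw [hd, Ms_eq i q r hr hri] at hB2
  exact iso_of_join i q r hi hr Δ B hB1 hB2

end Pool.Agent.Results.MP_94a3a7_co.Uniqueness
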